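import Pool.Agent.W989.TN.Stm

/-! Part TN-TOE. -/

set_option autoImplicit false

namespace Pool.Agent.W211.TN

open Matrix Finset Pool.Agent.W989.TN

theorem eq_of_cong {ι : Type} [Fintype ι] (p : ι → ℕ)
    (hp : Pairwise (Function.onFun Nat.Coprime p)) (k k0 : ℤ)
    (h : ∀ s, (k : ZMod (p s)) = (k0 : ZMod (p s))) (hlt : |k - k0| < ((∏ i, p i : ℕ) : ℤ)) :
    k = k0 := by
  have h1 : ∀ s, p s ∣ (k - k0).natAbs := by
    intro s
    have h2 : ((k - k0 : ℤ) : ZMod (p s)) = 0 := by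
      push_cast
      rw [h s, sub_self]
    have h3 := (ZMod.intCast_zmod_eq_zero_iff_dvd (k - k0) (p s)).1 h2
    exact Int.natCast_dvd.1 h3
  have h4 : ∏ i, p i ∣ (k - k0).natAbs := by
    apply Finset.prod_dvd_of_isRelPrime
    · intro a _ b _ hab
      exact Nat.coprime_iff_isRelPrime.1 (hp hab)
    · intro i _
      exact h1 i
  have h5 : (k - k0).natAbs < ∏ i, p i := by
    have : ((k - k0).natAbs : ℤ) < ((∏ i, p i : ℕ) : ℤ) := by
      rw [Int.natCast_natAbs]; exact hlt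
    exact_mod_cast this
  have h6 : (k - k0).natAbs = 0 := Nat.eq_zero_of_dvd_of_lt h4 h5
  have := Int.natAbs_eq_zero.1 h6
  linarith

theorem t_TOE : TOE := by
  classical
  intro ι _ _ p hp N hN f
  let φ : Fin N → ∀ i, ZMod (p i) := fun i s => ((i : ℕ) : ZMod (p s))
  let F : (∀ i, ZMod (p i)) → ℂ := fun g =>
    if h : ∃ k : ℤ, |k| < N ∧ ∀ s, (k : ZMod (p s)) = g s then f h.choose else 0
  have hNZ : (2 * (N : ℤ)) ≤ ((∏ i, p i : ℕ) : ℤ) := by exact_mod_cast hN
  refine ⟨F, φ, ?_, ?_⟩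
  · intro i j hij
    have h1 : ∀ s, (((i : ℕ) : ℤ) : ZMod (p s)) = (((j : ℕ) : ℤ) : ZMod (p s)) := by
      intro s
      have := congrFun hij s
      simpa [φ] using this
    have h2 : |((i : ℕ) : ℤ) - ((j : ℕ) : ℤ)| < ((∏ i, p i : ℕ) : ℤ) := by
      have hi := i.2
      have hj := j.2
      rw [abs_lt]
      constructor <;> omega
    have h3 := eq_of_cong p hp _ _ h1 h2
    apply Fin.ext
    exact_mod_cast h3
  · intro i j
    have hi := i.2
    have hj := j.2
    have hex : ∃ k : ℤ, |k| < N ∧ ∀ s, (k : ZMod (p s)) = (φ i - φ j) s := by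
      refine ⟨((i : ℕ) : ℤ) - ((j : ℕ) : ℤ), ?_, ?_⟩
      · rw [abs_lt]
        constructor <;> omega
      · intro s
        simp [φ]
    have hF : F (φ i - φ j) = f hex.choose := dif_pos hex
    obtain ⟨h1, h2⟩ := hex.choose_spec
    have h3 : hex.choose = ((i : ℕ) : ℤ) - ((j : ℕ) : ℤ) := by
      apply eq_of_cong p hp
      · intro s
        rw [h2 s]
        simp [φ]
      · rw [abs_lt] at h1 ⊢
        constructor <;> omega
    rw [hF, h3]
    rfl

end Pool.Agent.W211.TN
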